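import Pool.Agent.K1H40.CT.Stm

/-!
# CT-TOP1: alternating products in the exterior algebra
-/

set_option autoImplicit false

namespace Pool.Agent.K1H33.CT

open Pool.Agent.K1H40.CT

universe u

/-- the vectors of the product -/
noncomputable def vm (R : Type u) [CommRing R] (m : Fin 7 → Fin 4 → Fin 7) (i : Fin (7 * 4)) :
    Fin 4 × Fin 8 → R :=
  Pi.single ((finProdFinEquiv.symm i).2,
    (m (finProdFinEquiv.symm i).1 (finProdFinEquiv.symm i).2).castSucc) 1

theorem vm_apply (R : Type u) [CommRing R] (m : Fin 7 → Fin 4 → Fin 7) (j : Fin 7) (c : Fin 4) :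
    vm R m (finProdFinEquiv (j, c)) = Pi.single (c, (m j c).castSucc) 1 := by
  unfold vm
  rw [Equiv.symm_apply_apply]

theorem prod_eq (R : Type u) [CommRing R] (m : Fin 7 → Fin 4 → Fin 7) :
    (List.ofFn fun j : Fin 7 => ps R 0 (m j 0).castSucc * ps R 1 (m j 1).castSucc *
      ps R 2 (m j 2).castSucc * ps R 3 (m j 3).castSucc).prod =
    ExteriorAlgebra.ιMulti R (7 * 4) (vm R m) := by
  rw [ExteriorAlgebra.ιMulti_apply, List.ofFn_mul, List.prod_flatten, List.map_ofFn]
  congr 2
  funext j
  have h : ∀ (c : Fin 4) (hc : (j : ℕ) * 4 + c < 7 * 4),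
      (⟨(j : ℕ) * 4 + c, hc⟩ : Fin (7 * 4)) = finProdFinEquiv (j, c) := by
    intro c hc
    apply Fin.ext
    rw [finProdFinEquiv_apply_val]
    dsimp only
    ring
  simp only [Function.comp_apply, h, vm_apply]
  simp [List.ofFn_succ, ps, mul_assoc]

theorem sg_perm (π : Equiv.Perm (Fin 7)) : sg π = Equiv.Perm.sign π := by
  unfold sg
  have h := Matrix.det_permutation (R := ℤ) π
  rw [Int.cast_id] at h
  rw [← h]
  congr 1
  ext j i
  simp [PEquiv.toMatrix_apply, Equiv.toPEquiv_apply, eq_comm]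

theorem sg_zero {g : Fin 7 → Fin 7} {j j' : Fin 7} (hj : j ≠ j') (h : g j = g j') : sg g = 0 := by
  unfold sg
  refine Matrix.det_zero_of_row_eq hj ?_
  funext i
  simp [h]

theorem t_TOP1 : S_TOP1.{u} := by
  intro R _ m
  have hW : W0 R = ExteriorAlgebra.ιMulti R (7 * 4) (vm R fun j _ => j) :=
    prod_eq R fun j _ => j
  rw [prod_eq, hW]
  by_cases hm : ∀ c, Function.Injective fun j => m j c
  · obtain ⟨π, hπ⟩ : ∃ π : Fin 4 → Equiv.Perm (Fin 7), ∀ c j, π c j = m j c :=
      ⟨fun c => Equiv.ofBijective (fun j => m j c) (Finite.injective_iff_bijective.1 (hm c)),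
        fun c j => rfl⟩
    have h1 : vm R m = vm R (fun j _ => j) ∘
        (finProdFinEquiv.permCongr (Equiv.prodCongrLeft π)) := by
      funext i
      obtain ⟨⟨j, c⟩, rfl⟩ := finProdFinEquiv.surjective i
      rw [vm_apply, Function.comp_apply, Equiv.permCongr_apply, Equiv.symm_apply_apply,
        Equiv.prodCongrLeft_apply, vm_apply, hπ]
    have h2 : eps m = (Equiv.Perm.sign (finProdFinEquiv.permCongr (Equiv.prodCongrLeft π)) : ℤ) := by
      rw [Equiv.Perm.sign_permCongr, Equiv.Perm.sign_prodCongrLeft, Units.coe_prod]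
      unfold eps
      refine Finset.prod_congr rfl fun c _ => ?_
      rw [← sg_perm]
      congr 1
      funext j
      exact (hπ c j).symm
    rw [h1, AlternatingMap.map_perm, h2, Int.cast_smul_eq_zsmul, Units.smul_def]
  · push Not at hm
    obtain ⟨c, hc⟩ := hm
    rw [Function.not_injective_iff] at hc
    obtain ⟨j, j', h, hj⟩ := hc
    have h1 : eps m = 0 := by
      unfold eps
      exact Finset.prod_eq_zero (Finset.mem_univ c) (sg_zero hj h)
    rw [h1, Int.cast_zero, zero_smul]
    refine AlternatingMap.map_eq_zero_of_eq _ _ (i := finProdFinEquiv (j, c))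
      (j := finProdFinEquiv (j', c)) ?_ ?_
    · rw [vm_apply, vm_apply]
      have h' : m j c = m j' c := h
      rw [h']
    · intro h2
      exact hj (Prod.ext_iff.1 (finProdFinEquiv.injective h2)).1

end Pool.Agent.K1H33.CT
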